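import Pool.Agent.TH329.HU.Sl

/-!
# Project HU, C4: concentration inequality in the square
-/

set_option autoImplicit false

open MeasureTheory Set Metric Filter Topology
open scoped ENNReal Real

noncomputable section

namespace Pool.Agent.TH329.HU

open Pool.Agent.TH304.MI Pool.Agent.TH703.HU

lemma cont_h (y : ℝ) : Continuous (fun t : ℝ => (⟨t, y⟩ : ℂ)) := by
  have : (fun t : ℝ => (⟨t, y⟩ : ℂ)) = fun t : ℝ => (t : ℂ) + (y : ℂ) * Complex.I := by
    funext t; apply Complex.ext <;> simp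
  rw [this]; fun_prop

lemma cont_v (x : ℝ) : Continuous (fun t : ℝ => (⟨x, t⟩ : ℂ)) := by
  have : (fun t : ℝ => (⟨x, t⟩ : ℂ)) = fun t : ℝ => (x : ℂ) + (t : ℂ) * Complex.I := by
    funext t; apply Complex.ext <;> simp
  rw [this]; fun_prop

/-- The cut-off function. -/
lemma cutoff (w : ℂ → ℝ) (δ : ℝ) (hw : Continuous w) (hδ1 : δ ≤ 1 / 1000)
    (hq : ∀ x : ℂ, |x.re| ≤ 1 / 2 - δ → |x.im| ≤ 1 / 2 - δ → 1 - δ ≤ w x)
    (h0 : ∀ x, 0 ≤ w x) :
    ∃ u : ℂ → ℝ, Continuous u ∧ HasCompactSupport u ∧ tsupport u ⊆ {x | 0 < w x} ∧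
      (∀ x, 0 ≤ u x) ∧ (∀ x, u x ≤ w x) ∧
      ∀ x : ℂ, |x.re| ≤ 1 / 2 - δ → |x.im| ≤ 1 / 2 - δ → u x = 1 - δ := by
  set K : Set ℂ := {x | |x.re| ≤ 1 / 2 - δ ∧ |x.im| ≤ 1 / 2 - δ} with hK
  set U : Set ℂ := {x | 0 < w x} with hU
  have hUo : IsOpen U := isOpen_lt continuous_const hw
  have hKc : IsCompact K := by
    apply isCompact_of_isClosed_isBounded
    · exact (isClosed_le (Complex.continuous_re.abs) continuous_const).inter
        (isClosed_le (Complex.continuous_im.abs) continuous_const)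
    · refine (Metric.isBounded_closedBall (x := (0 : ℂ)) (r := 2 * |1 / 2 - δ|)).subset ?_
      intro x hx
      rw [mem_closedBall, dist_zero_right]
      have h1 := Complex.norm_le_abs_re_add_abs_im x
      have h2 := hx.1
      have h3 := hx.2
      have h4 := le_abs_self (1 / 2 - δ)
      linarith
  have hKU : K ⊆ U := by
    intro x hx
    have := hq x hx.1 hx.2
    show 0 < w x
    linarith
  obtain ⟨L, hLc, hKL, hLU⟩ := exists_compact_between hKc hUo hKU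
  obtain ⟨f, hf1, hf0, hfc, hf01⟩ := exists_continuous_one_zero_of_isCompact hKc
    (isClosed_compl_iff.2 (isOpen_interior (s := L))) (disjoint_compl_right_iff_subset.2 hKL)
  refine ⟨fun x => min (w x) (1 - δ) * f x, ?_, ?_, ?_, ?_, ?_, ?_⟩
  · exact (hw.min continuous_const).mul f.continuous
  · exact hfc.mul_left
  · have h1 : Function.support (fun x => min (w x) (1 - δ) * f x) ⊆ interior L := by
      intro x hx
      by_contra h
      apply hx
      have : f x = 0 := hf0 h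
      simp only [this, mul_zero]
    have h2 : tsupport (fun x => min (w x) (1 - δ) * f x) ⊆ L := by
      refine (closure_mono (h1.trans interior_subset)).trans ?_
      rw [hLc.isClosed.closure_eq]
    exact h2.trans hLU
  · intro x
    have h1 := hf01 x
    have h2 : 0 ≤ min (w x) (1 - δ) := le_min (h0 x) (by linarith)
    exact mul_nonneg h2 h1.1
  · intro x
    have h1 := hf01 x
    have h2 : 0 ≤ min (w x) (1 - δ) := le_min (h0 x) (by linarith)
    calc min (w x) (1 - δ) * f x ≤ min (w x) (1 - δ) * 1 :=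
          mul_le_mul_of_nonneg_left h1.2 h2
      _ ≤ w x := by rw [mul_one]; exact min_le_left _ _
  · intro x hx1 hx2
    have h1 : f x = 1 := hf1 ⟨hx1, hx2⟩
    simp only [h1, mul_one]
    exact min_eq_right (hq x hx1 hx2)

/-- Sum of two indicator functions below `F`. -/
lemma two (F : ℝ → ℝ≥0∞) (X Y : Set ℝ) (hX : MeasurableSet X) (hY : MeasurableSet Y) (κ : ℝ≥0∞)
    (h1 : ∀ b ∈ X, b ∈ Y → 2 * κ ≤ F b) (h2 : ∀ b ∈ X, κ ≤ F b) (h3 : ∀ b ∈ Y, κ ≤ F b) :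
    κ * (volume X + volume Y) ≤ ∫⁻ b, F b := by
  have e : κ * (volume X + volume Y) =
      ∫⁻ b, (X.indicator (fun _ => κ) b + Y.indicator (fun _ => κ) b) := by
    rw [lintegral_add_left (measurable_const.indicator hX), lintegral_indicator_const hX,
      lintegral_indicator_const hY, mul_add]
  rw [e]
  refine lintegral_mono fun b => ?_
  by_cases hbX : b ∈ X
  · by_cases hbY : b ∈ Y
    · simp only [indicator_of_mem hbX, indicator_of_mem hbY]
      rw [← two_mul]; exact h1 b hbX hbY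
    · simp only [indicator_of_mem hbX, indicator_of_notMem hbY, add_zero]
      exact h2 b hbX
  · by_cases hbY : b ∈ Y
    · simp only [indicator_of_notMem hbX, indicator_of_mem hbY, zero_add]
      exact h3 b hbY
    · simp only [indicator_of_notMem hbX, indicator_of_notMem hbY, add_zero]
      exact zero_le

lemma am (x a b : ℝ) (ha : 0 ≤ a) (hb : 0 ≤ b) (h : x ≤ a * b) : 2 * √x ≤ a + b := by
  have h1 : √x ≤ (a + b) / 2 := by
    rw [Real.sqrt_le_iff]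
    refine ⟨by linarith, ?_⟩
    nlinarith [sq_nonneg (a - b)]
  linarith

lemma am2 (x a b : ℝ) (ha : 0 ≤ a) (hb : 0 ≤ b) (h : x ≤ a * b) :
    2 * √2 * √x ≤ 2 * a + b := by
  have h1 : √(2 * x) ≤ (2 * a + b) / 2 := by
    rw [Real.sqrt_le_iff]
    refine ⟨by linarith, ?_⟩
    nlinarith [sq_nonneg (2 * a - b)]
  rw [Real.sqrt_mul (by norm_num : (0 : ℝ) ≤ 2)] at h1
  linarith

/-- The set-up. -/
structure Su (u : ℂ → ℝ) (A Q R : Set ℂ) (q κ : ℝ) : Prop where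
  uc : Continuous u
  u0 : ∀ x, 0 ≤ u x
  mA : MeasurableSet A
  q1 : 499 / 1000 ≤ q
  κ0 : 0 ≤ κ
  hu : ∀ x : ℂ, |x.re| ≤ q → |x.im| ≤ q → u x = κ
  hQ : Q = {x | |x.re| < q ∧ |x.im| < q}
  hR : R = {x | 2 / 5 < x.re ∧ |x.im| < 43 / 100}

section lines

variable {u : ℂ → ℝ} {A Q R : Set ℂ} {q κ : ℝ}

lemma Su.mQ (h : Su u A Q R q κ) : MeasurableSet Q := by
  rw [h.hQ]
  exact ((isOpen_lt (Complex.continuous_re.abs) continuous_const).inter
    (isOpen_lt (Complex.continuous_im.abs) continuous_const)).measurableSet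

lemma Su.mR (h : Su u A Q R q κ) : MeasurableSet R := by
  rw [h.hR]
  exact ((isOpen_lt continuous_const Complex.continuous_re).inter
    (isOpen_lt (Complex.continuous_im.abs) continuous_const)).measurableSet

lemma Su.mAQ (h : Su u A Q R q κ) : MeasurableSet (A ∩ Q) := h.mA.inter h.mQ

lemma nonempty_of_pos {S : Set ℝ} (h : 0 < volume S) : S.Nonempty := by
  by_contra h1
  rw [not_nonempty_iff_eq_empty] at h1
  rw [h1, measure_empty] at h
  exact lt_irrefl _ h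

/-- Horizontal slices of `A ∩ Q`. -/
lemma Su.hsl (h : Su u A Q R q κ) (b : ℝ) (hb : |b| < q) :
    hs (A ∩ Q) b = hs A b ∩ Ioo (-q) q := by
  ext t
  simp only [hs, h.hQ, mem_ofPred_eq, mem_inter_iff, mem_Ioo, abs_lt]
  rw [abs_lt] at hb
  tauto

lemma Su.vsl (h : Su u A Q R q κ) (a : ℝ) (ha : |a| < q) :
    vs (A ∩ Q) a = vs A a ∩ Ioo (-q) q := by
  ext t
  simp only [vs, h.hQ, mem_ofPred_eq, mem_inter_iff, mem_Ioo, abs_lt]
  rw [abs_lt] at ha
  tauto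

lemma Su.hq (h : Su u A Q R q κ) {B : Set ℂ} (hB : B ⊆ A ∩ Q) {b : ℝ} (hb : b ∈ XH B) :
    |b| < q := by
  obtain ⟨t, ht⟩ := nonempty_of_pos hb
  have := (hB ht).2
  rw [h.hQ] at this
  exact this.2

lemma Su.vq (h : Su u A Q R q κ) {B : Set ℂ} (hB : B ⊆ A ∩ Q) {a : ℝ} (ha : a ∈ XV B) :
    |a| < q := by
  obtain ⟨t, ht⟩ := nonempty_of_pos ha
  have := (hB ht).2
  rw [h.hQ] at this
  exact this.1

lemma Su.hR1 (h : Su u A Q R q κ) {b : ℝ} (hb : b ∈ XH (A ∩ Q ∩ R)) :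
    |b| < 43 / 100 ∧ 0 < volume (hs A b ∩ Ioo (2 / 5) q) := by
  refine ⟨?_, ?_⟩
  · obtain ⟨t, ht⟩ := nonempty_of_pos hb
    have := ht.2
    rw [h.hR] at this
    exact this.2
  · refine lt_of_lt_of_le (show 0 < volume (hs (A ∩ Q ∩ R) b) from hb) (measure_mono ?_)
    rintro t ⟨⟨h1, h2⟩, h3⟩
    rw [h.hQ] at h2
    rw [h.hR] at h3
    exact ⟨h1, h3.1, (abs_lt.1 h2.1).2⟩

lemma Su.vR1 (h : Su u A Q R q κ) {a : ℝ} (ha : a ∈ XV (A ∩ Q ∩ R)) :
    2 / 5 < a ∧ 0 < volume (vs A a ∩ Ioo (-(43 / 100)) (43 / 100)) := by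
  refine ⟨?_, ?_⟩
  · obtain ⟨t, ht⟩ := nonempty_of_pos ha
    have := ht.2
    rw [h.hR] at this
    exact this.1
  · refine lt_of_lt_of_le (show 0 < volume (vs (A ∩ Q ∩ R) a) from ha) (measure_mono ?_)
    rintro t ⟨⟨h1, h2⟩, h3⟩
    rw [h.hR] at h3
    exact ⟨h1, abs_lt.1 h3.2⟩

/-- Lines meeting the complement of `R`. -/
lemma Su.hC (h : Su u A Q R q κ) {b : ℝ} (hb : b ∈ XH ((A ∩ Q) \ R)) :
    (|b| < 43 / 100 → 0 < volume (hs A b ∩ Ioo (-q) (2 / 5))) ∧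
    (¬ |b| < 43 / 100 → 0 < volume (hs A b ∩ Ioo (-q) q)) := by
  have hb0 : 0 < volume (hs ((A ∩ Q) \ R) b) := hb
  refine ⟨fun h43 => ?_, fun _ => ?_⟩
  · have h1 : volume (hs ((A ∩ Q) \ R) b) ≤
        volume (hs A b ∩ Ioo (-q) (2 / 5)) + volume ({2 / 5} : Set ℝ) := by
      refine le_trans (measure_mono ?_) (measure_union_le _ _)
      rintro t ⟨⟨h1, h2⟩, h3⟩
      rw [h.hQ] at h2
      rw [h.hR] at h3
      have h4 : t ≤ 2 / 5 := by
        by_contra h5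
        exact h3 ⟨not_le.1 h5, h43⟩
      rcases h4.lt_or_eq with h5 | h5
      · exact Or.inl ⟨h1, (abs_lt.1 h2.1).1, h5⟩
      · exact Or.inr h5
    rw [Real.volume_singleton, add_zero] at h1
    exact lt_of_lt_of_le hb0 h1
  · refine lt_of_lt_of_le hb0 (measure_mono ?_)
    rintro t ⟨⟨h1, h2⟩, _⟩
    rw [h.hQ] at h2
    exact ⟨h1, abs_lt.1 h2.1⟩

lemma Su.vC (h : Su u A Q R q κ) {a : ℝ} (ha : a ∈ XV ((A ∩ Q) \ R)) :
    (2 / 5 < a → (0 < volume (vs A a ∩ Ioo (-q) (-(43 / 100))) ∨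
      0 < volume (vs A a ∩ Ioo (43 / 100) q))) ∧
    (¬ 2 / 5 < a → 0 < volume (vs A a ∩ Ioo (-q) q)) := by
  have ha0 : 0 < volume (vs ((A ∩ Q) \ R) a) := ha
  refine ⟨fun h25 => ?_, fun _ => ?_⟩
  · by_contra hcon
    rw [not_or] at hcon
    have z1 : volume (vs A a ∩ Ioo (-q) (-(43 / 100))) = 0 := by
      by_contra h2; exact hcon.1 (pos_iff_ne_zero.2 h2)
    have z2 : volume (vs A a ∩ Ioo (43 / 100) q) = 0 := by
      by_contra h2; exact hcon.2 (pos_iff_ne_zero.2 h2)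
    have h1 : volume (vs ((A ∩ Q) \ R) a) ≤
        volume ((vs A a ∩ Ioo (-q) (-(43 / 100))) ∪ (vs A a ∩ Ioo (43 / 100) q)) +
          volume ({-(43 / 100), 43 / 100} : Set ℝ) := by
      refine le_trans (measure_mono ?_) (measure_union_le _ _)
      rintro t ⟨⟨h1, h2⟩, h3⟩
      rw [h.hQ] at h2
      rw [h.hR] at h3
      have h4 : ¬ |t| < 43 / 100 := fun h5 => h3 ⟨h25, h5⟩
      rw [not_lt, le_abs] at h4
      rcases h4 with h5 | h5
      · rcases h5.lt_or_eq with h6 | h6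
        · exact Or.inl (Or.inr ⟨h1, h6, (abs_lt.1 h2.2).2⟩)
        · exact Or.inr (Or.inr h6.symm)
      · rcases h5.lt_or_eq with h6 | h6
        · refine Or.inl (Or.inl ⟨h1, (abs_lt.1 h2.2).1, ?_⟩)
          show t < -(43 / 100)
          linarith
        · refine Or.inr (Or.inl ?_)
          show t = -(43 / 100)
          linarith
    have h2 : volume ({-(43 / 100), 43 / 100} : Set ℝ) = 0 :=
      (Set.toFinite _).measure_zero _
    have h3 : volume ((vs A a ∩ Ioo (-q) (-(43 / 100))) ∪ (vs A a ∩ Ioo (43 / 100) q)) = 0 :=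
      measure_union_null z1 z2
    rw [h2, h3, add_zero] at h1
    exact absurd (lt_of_lt_of_le ha0 h1) (lt_irrefl _)
  · refine lt_of_lt_of_le ha0 (measure_mono ?_)
    rintro t ⟨⟨h1, h2⟩, _⟩
    rw [h.hQ] at h2
    exact ⟨h1, abs_lt.1 h2.2⟩

lemma Su.bh (h : Su u A Q R q κ) {b : ℝ} (hb : |b| < q) (hB : b ∉ BH (A ∩ Q)) :
    volume (hs A b ∩ Ioo (-q) q) < ENNReal.ofReal (6 / 100) := by
  rw [← h.hsl b hb]
  exact not_le.1 hB

lemma Su.bv (h : Su u A Q R q κ) {a : ℝ} (ha : |a| < q) (hB : a ∉ BV (A ∩ Q)) :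
    volume (vs A a ∩ Ioo (-q) q) < ENNReal.ofReal (6 / 100) := by
  rw [← h.vsl a ha]
  exact not_le.1 hB

/-- Horizontal lines, both parts. -/
lemma Su.h2 (c3 : S_C3) (h : Su u A Q R q κ) {b : ℝ} (hB : b ∉ BH (A ∩ Q))
    (h1 : b ∈ XH (A ∩ Q ∩ R)) (h2 : b ∈ XH ((A ∩ Q) \ R)) :
    2 * ENNReal.ofReal κ ≤ ev (fun t => u ⟨t, b⟩) (hs A b) := by
  have hq1 := h.q1
  have hbq : |b| < q := h.hq sdiff_subset h2
  have hbb := h.bh hbq hB
  have hc := c3 (fun t => u ⟨t, b⟩) (hs A b) (h.uc.comp (cont_h b)) (fun t => h.u0 _)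
    (meas_hs h.mA b)
  have h43 := h.hR1 h1
  have h5 := (h.hC h2).1 h43.1
  have hk : ∀ t : ℝ, |t| ≤ q → κ ≤ u ⟨t, b⟩ := fun t ht => (h.hu ⟨t, b⟩ ht hbq.le).ge
  have := hc.2.1 (-q) (2 / 5) (2 / 5) q κ κ (by linarith) le_rfl (by linarith) h.κ0 h.κ0
    (fun t ht => hk t (abs_le.2 ⟨ht.1.le, by linarith [ht.2]⟩))
    (fun t ht => hk t (abs_le.2 ⟨by linarith [ht.1], ht.2.le⟩))
    h5 (not_full le_rfl (by linarith) (by linarith) hbb)
    h43.2 (not_full (by linarith) le_rfl (by linarith) hbb)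
  rwa [← two_mul, ENNReal.ofReal_mul (by norm_num), ENNReal.ofReal_ofNat] at this

lemma Su.h1 (c3 : S_C3) (h : Su u A Q R q κ) {b : ℝ} (hB : b ∉ BH (A ∩ Q))
    (h1 : b ∈ XH (A ∩ Q ∩ R)) :
    ENNReal.ofReal κ ≤ ev (fun t => u ⟨t, b⟩) (hs A b) := by
  have hq1 := h.q1
  have hbq : |b| < q := h.hq inter_subset_left h1
  have hbb := h.bh hbq hB
  have hc := c3 (fun t => u ⟨t, b⟩) (hs A b) (h.uc.comp (cont_h b)) (fun t => h.u0 _)
    (meas_hs h.mA b)
  have h43 := h.hR1 h1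
  have hk : ∀ t : ℝ, |t| ≤ q → κ ≤ u ⟨t, b⟩ := fun t ht => (h.hu ⟨t, b⟩ ht hbq.le).ge
  exact hc.1 (2 / 5) q κ (by linarith) h.κ0
    (fun t ht => hk t (abs_le.2 ⟨by linarith [ht.1], ht.2.le⟩))
    h43.2 (not_full (by linarith) le_rfl (by linarith) hbb)

lemma Su.h3 (c3 : S_C3) (h : Su u A Q R q κ) {b : ℝ} (hB : b ∉ BH (A ∩ Q))
    (h2 : b ∈ XH ((A ∩ Q) \ R)) :
    ENNReal.ofReal κ ≤ ev (fun t => u ⟨t, b⟩) (hs A b) := by
  have hq1 := h.q1
  have hbq : |b| < q := h.hq sdiff_subset h2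
  have hbb := h.bh hbq hB
  have hc := c3 (fun t => u ⟨t, b⟩) (hs A b) (h.uc.comp (cont_h b)) (fun t => h.u0 _)
    (meas_hs h.mA b)
  have hk : ∀ t : ℝ, |t| ≤ q → κ ≤ u ⟨t, b⟩ := fun t ht => (h.hu ⟨t, b⟩ ht hbq.le).ge
  by_cases h43 : |b| < 43 / 100
  · have h5 := (h.hC h2).1 h43
    exact hc.1 (-q) (2 / 5) κ (by linarith) h.κ0
      (fun t ht => hk t (abs_le.2 ⟨ht.1.le, by linarith [ht.2]⟩))
      h5 (not_full le_rfl (by linarith) (by linarith) hbb)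
  · have h5 := (h.hC h2).2 h43
    exact hc.1 (-q) q κ (by linarith) h.κ0
      (fun t ht => hk t (abs_le.2 ⟨ht.1.le, ht.2.le⟩))
      h5 (not_full le_rfl le_rfl (by linarith) hbb)

/-- Vertical lines meeting `R`. -/
lemma Su.v2 (c3 : S_C3) (h : Su u A Q R q κ) {a : ℝ} (hB : a ∉ BV (A ∩ Q))
    (h1 : a ∈ XV (A ∩ Q ∩ R)) :
    2 * ENNReal.ofReal κ ≤ ev (fun t => u ⟨a, t⟩) (vs A a) := by
  have hq1 := h.q1
  have haq : |a| < q := h.vq inter_subset_left h1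
  have hbb := h.bv haq hB
  have hc := c3 (fun t => u ⟨a, t⟩) (vs A a) (h.uc.comp (cont_v a)) (fun t => h.u0 _)
    (meas_vs h.mA a)
  have h43 := h.vR1 h1
  have hk : ∀ t : ℝ, |t| ≤ q → κ ≤ u ⟨a, t⟩ := fun t ht => (h.hu ⟨a, t⟩ haq.le ht).ge
  have := hc.2.2 (-q) (-(43 / 100)) (43 / 100) q κ (by linarith) (by linarith) (by linarith) h.κ0
    (fun t ht => hk t (abs_le.2 ⟨ht.1.le, ht.2.le⟩))
    (not_full le_rfl (by linarith) (by linarith) hbb) h43.2
    (not_full (by linarith) le_rfl (by linarith) hbb)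
  rwa [ENNReal.ofReal_mul (by norm_num), ENNReal.ofReal_ofNat] at this

lemma Su.v3 (c3 : S_C3) (h : Su u A Q R q κ) {a : ℝ} (hB : a ∉ BV (A ∩ Q))
    (h2 : a ∈ XV ((A ∩ Q) \ R)) :
    ENNReal.ofReal κ ≤ ev (fun t => u ⟨a, t⟩) (vs A a) := by
  have hq1 := h.q1
  have haq : |a| < q := h.vq sdiff_subset h2
  have hbb := h.bv haq hB
  have hc := c3 (fun t => u ⟨a, t⟩) (vs A a) (h.uc.comp (cont_v a)) (fun t => h.u0 _)
    (meas_vs h.mA a)
  have hk : ∀ t : ℝ, |t| ≤ q → κ ≤ u ⟨a, t⟩ := fun t ht => (h.hu ⟨a, t⟩ haq.le ht).ge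
  by_cases h25 : 2 / 5 < a
  · rcases (h.vC h2).1 h25 with h5 | h5
    · exact hc.1 (-q) (-(43 / 100)) κ (by linarith) h.κ0
        (fun t ht => hk t (abs_le.2 ⟨ht.1.le, by linarith [ht.2]⟩))
        h5 (not_full le_rfl (by linarith) (by linarith) hbb)
    · exact hc.1 (43 / 100) q κ (by linarith) h.κ0
        (fun t ht => hk t (abs_le.2 ⟨by linarith [ht.1], ht.2.le⟩))
        h5 (not_full (by linarith) le_rfl (by linarith) hbb)
  · have h5 := (h.vC h2).2 h25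
    exact hc.1 (-q) q κ (by linarith) h.κ0
      (fun t ht => hk t (abs_le.2 ⟨ht.1.le, ht.2.le⟩))
      h5 (not_full le_rfl le_rfl (by linarith) hbb)

/-- Finite measure. -/
lemma Su.finH (h : Su u A Q R q κ) {B : Set ℂ} (hB : B ⊆ A ∩ Q) : volume (XH B) ≠ ∞ := by
  refine ne_top_of_le_ne_top (b := volume (Ioo (-q) q)) ?_ (measure_mono ?_)
  · rw [Real.volume_Ioo]; exact ENNReal.ofReal_ne_top
  · intro b hb
    exact abs_lt.1 (h.hq hB hb)

lemma Su.finV (h : Su u A Q R q κ) {B : Set ℂ} (hB : B ⊆ A ∩ Q) : volume (XV B) ≠ ∞ := by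
  refine ne_top_of_le_ne_top (b := volume (Ioo (-q) q)) ?_ (measure_mono ?_)
  · rw [Real.volume_Ioo]; exact ENNReal.ofReal_ne_top
  · intro a ha
    exact abs_lt.1 (h.vq hB ha)

lemma BH_sub (B : Set ℂ) : BH B ⊆ XH B := fun b hb =>
  lt_of_lt_of_le (ENNReal.ofReal_pos.2 (by norm_num)) (show _ ≤ volume (hs B b) from hb)

lemma BV_sub (B : Set ℂ) : BV B ⊆ XV B := fun b hb =>
  lt_of_lt_of_le (ENNReal.ofReal_pos.2 (by norm_num)) (show _ ≤ volume (vs B b) from hb)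

lemma Su.finQ (h : Su u A Q R q κ) {B : Set ℂ} (hB : B ⊆ A ∩ Q) (hm : MeasurableSet B) :
    volume B ≠ ∞ := by
  refine ne_top_of_le_ne_top ?_ (prod_le hm)
  exact ENNReal.mul_ne_top (h.finV hB) (h.finH hB)

/-- Real form of the product bound. -/
lemma Su.prodR (h : Su u A Q R q κ) {B : Set ℂ} (hB : B ⊆ A ∩ Q) (hm : MeasurableSet B) :
    volume.real B ≤ volume.real (XV B) * volume.real (XH B) := by
  unfold Measure.real
  rw [← ENNReal.toReal_mul]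
  exact ENNReal.toReal_mono (ENNReal.mul_ne_top (h.finV hB) (h.finH hB)) (prod_le hm)

lemma Su.badH (h : Su u A Q R q κ) :
    6 / 100 * volume.real (BH (A ∩ Q)) ≤ volume.real (A ∩ Q) := by
  unfold Measure.real
  have := ENNReal.toReal_mono (h.finQ subset_rfl h.mAQ) (BH_le h.mAQ)
  rwa [ENNReal.toReal_mul, ENNReal.toReal_ofReal (by norm_num)] at this

lemma Su.badV (h : Su u A Q R q κ) :
    6 / 100 * volume.real (BV (A ∩ Q)) ≤ volume.real (A ∩ Q) := by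
  unfold Measure.real
  have := ENNReal.toReal_mono (h.finQ subset_rfl h.mAQ) (BV_le h.mAQ)
  rwa [ENNReal.toReal_mul, ENNReal.toReal_ofReal (by norm_num)] at this

/-- Subtracting the bad lines. -/
lemma sub_bad {X Y : Set ℝ} (hY : volume Y ≠ ∞) :
    volume.real X - volume.real Y ≤ volume.real (X \ Y) :=
  le_measureReal_sdiff hY

end lines

/-- From extended to real numbers. -/
lemma to_real {X1 X2 X3 X4 : Set ℝ} {κ P : ℝ} (hκ : 0 ≤ κ) (hP : 0 ≤ P)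
    (f1 : volume X1 ≠ ∞) (f2 : volume X2 ≠ ∞) (f3 : volume X3 ≠ ∞) (f4 : volume X4 ≠ ∞)
    (h : ENNReal.ofReal κ * (volume X1 + volume X2) + ENNReal.ofReal κ * (volume X3 + volume X4) ≤
      ENNReal.ofReal P) :
    κ * (volume.real X1 + volume.real X2) + κ * (volume.real X3 + volume.real X4) ≤ P := by
  have h1 := ENNReal.toReal_mono ENNReal.ofReal_ne_top h
  rw [ENNReal.toReal_ofReal hP, ENNReal.toReal_add, ENNReal.toReal_mul, ENNReal.toReal_mul,
    ENNReal.toReal_add f1 f2, ENNReal.toReal_add f3 f4, ENNReal.toReal_ofReal hκ] at h1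
  · exact h1
  · exact ENNReal.mul_ne_top ENNReal.ofReal_ne_top (ENNReal.add_ne_top.2 ⟨f1, f2⟩)
  · exact ENNReal.mul_ne_top ENNReal.ofReal_ne_top (ENNReal.add_ne_top.2 ⟨f3, f4⟩)

/-- **C4.** -/
theorem c4 (c2 : S_C2) (c3 : S_C3) : S_C4 := by
  intro w A P δ hw hw0 hA hδ hδ1 hP hq hPW Q R hQ hR
  obtain ⟨u, uc, ucs, usup, u0, uw, huq⟩ := cutoff w δ hw hδ1 hq hw0
  have h : Su u A Q R (1 / 2 - δ) (1 - δ) :=
    ⟨uc, u0, hA, by linarith, by linarith, huq, hQ, hR⟩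
  have hc2 := c2 w u A P hw hw0 uc ucs usup u0 uw hA hPW
  set κ : ℝ := 1 - δ with hκ
  have hκ0 : 0 ≤ κ := h.κ0
  have hκ1 : κ ≤ 1 := by rw [hκ]; linarith
  set EH : ℝ → ℝ≥0∞ := fun y => ev (fun t => u ⟨t, y⟩) (hs A y) with hEH
  set EV : ℝ → ℝ≥0∞ := fun x => ev (fun t => u ⟨x, t⟩) (vs A x) with hEV
  have hsum : (∫⁻ y, EH y) + (∫⁻ x, EV x) ≤ ENNReal.ofReal (√2 * P) := hc2
  -- measurability
  have m1 : MeasurableSet (A ∩ Q ∩ R) := h.mAQ.inter h.mR
  have m2 : MeasurableSet ((A ∩ Q) \ R) := h.mAQ.diff h.mR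
  have s1 : A ∩ Q ∩ R ⊆ A ∩ Q := inter_subset_left
  have s2 : (A ∩ Q) \ R ⊆ A ∩ Q := sdiff_subset
  have mBH := meas_BH h.mAQ
  have mBV := meas_BV h.mAQ
  have fBH : volume (BH (A ∩ Q)) ≠ ∞ :=
    ne_top_of_le_ne_top (h.finH subset_rfl) (measure_mono (BH_sub _))
  have fBV : volume (BV (A ∩ Q)) ≠ ∞ :=
    ne_top_of_le_ne_top (h.finV subset_rfl) (measure_mono (BV_sub _))
  set X1 := XH (A ∩ Q ∩ R) with hX1
  set X2 := XH ((A ∩ Q) \ R) with hX2
  set X3 := XV (A ∩ Q ∩ R) with hX3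
  set X4 := XV ((A ∩ Q) \ R) with hX4
  have f1 : volume X1 ≠ ∞ := h.finH s1
  have f2 : volume X2 ≠ ∞ := h.finH s2
  have f3 : volume X3 ≠ ∞ := h.finV s1
  have f4 : volume X4 ≠ ∞ := h.finV s2
  have g1 : volume (X1 \ BH (A ∩ Q)) ≠ ∞ := ne_top_of_le_ne_top f1 (measure_mono sdiff_subset)
  have g2 : volume (X2 \ BH (A ∩ Q)) ≠ ∞ := ne_top_of_le_ne_top f2 (measure_mono sdiff_subset)
  have g3 : volume (X3 \ BV (A ∩ Q)) ≠ ∞ := ne_top_of_le_ne_top f3 (measure_mono sdiff_subset)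
  have g4 : volume (X4 \ BV (A ∩ Q)) ≠ ∞ := ne_top_of_le_ne_top f4 (measure_mono sdiff_subset)
  -- lower bounds for the two integrals
  have hH : ENNReal.ofReal κ * (volume (X1 \ BH (A ∩ Q)) + volume (X2 \ BH (A ∩ Q))) ≤
      ∫⁻ y, EH y := by
    refine two EH _ _ ((meas_XH m1).diff mBH) ((meas_XH m2).diff mBH) _ ?_ ?_ ?_
    · intro b hb1 hb2
      exact h.h2 c3 hb1.2 hb1.1 hb2.1
    · intro b hb
      exact h.h1 c3 hb.2 hb.1
    · intro b hb
      exact h.h3 c3 hb.2 hb.1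
  have hle2 : ∀ x : ℝ≥0∞, x ≤ 2 * x := fun x => by
    rw [two_mul]; exact le_self_add
  have hV : ENNReal.ofReal κ * (volume (X3 \ BV (A ∩ Q)) + volume (X4 \ BV (A ∩ Q))) ≤
      ∫⁻ y, EV y := by
    refine two EV _ _ ((meas_XV m1).diff mBV) ((meas_XV m2).diff mBV) _ ?_ ?_ ?_
    · intro b hb1 hb2
      exact h.v2 c3 hb1.2 hb1.1
    · intro b hb
      exact (hle2 _).trans (h.v2 c3 hb.2 hb.1)
    · intro b hb
      exact h.v3 c3 hb.2 hb.1
  have hV' : ENNReal.ofReal κ * (volume (X3 \ BV (A ∩ Q)) + volume (X3 \ BV (A ∩ Q))) ≤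
      ∫⁻ y, EV y := by
    refine two EV _ _ ((meas_XV m1).diff mBV) ((meas_XV m1).diff mBV) _ ?_ ?_ ?_
    · intro b hb1 hb2
      exact h.v2 c3 hb1.2 hb1.1
    · intro b hb
      exact (hle2 _).trans (h.v2 c3 hb.2 hb.1)
    · intro b hb
      exact (hle2 _).trans (h.v2 c3 hb.2 hb.1)
  have hP2 : 0 ≤ √2 * P := by positivity
  have r1 := to_real hκ0 hP2 g1 g2 g3 g4 (le_trans (add_le_add hH hV) hsum)
  have r2 := to_real hκ0 hP2 g1 g2 g3 g3 (le_trans (add_le_add hH hV') hsum)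
  have d1 := sub_bad (X := X1) fBH
  have d2 := sub_bad (X := X2) fBH
  have d3 := sub_bad (X := X3) fBV
  have d4 := sub_bad (X := X4) fBV
  have bH := h.badH
  have bV := h.badV
  have p1 := h.prodR s1 m1
  have p2 := h.prodR s2 m2
  have n1 : 0 ≤ volume.real X1 := measureReal_nonneg
  have n2 : 0 ≤ volume.real X2 := measureReal_nonneg
  have n3 : 0 ≤ volume.real X3 := measureReal_nonneg
  have n4 : 0 ≤ volume.real X4 := measureReal_nonneg
  have n5 : 0 ≤ volume.real (X2 \ BH (A ∩ Q)) := measureReal_nonneg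
  have a1 := am _ _ _ n3 n1 p1
  have a2 := am _ _ _ n4 n2 p2
  have a3 := am2 _ _ _ n3 n1 p1
  set x1 := √(volume.real (A ∩ Q ∩ R)) with hx1
  set x2 := √(volume.real ((A ∩ Q) \ R)) with hx2
  set V := volume.real (A ∩ Q) with hVd
  have hV0 : 0 ≤ V := measureReal_nonneg
  have hs2 : √2 * √2 = (2 : ℝ) := Real.mul_self_sqrt (by norm_num)
  have hs1 : 1 ≤ √(2 : ℝ) := by
    rw [Real.one_le_sqrt]; norm_num
  have hs0 : 0 < √(2 : ℝ) := by positivity
  constructor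
  · refine le_of_mul_le_mul_left ?_ hs0
    have e1 : √2 * (√2 * κ * (x1 + x2)) = κ * (2 * x1 + 2 * x2) := by
      rw [show √2 * (√2 * κ * (x1 + x2)) = (√2 * √2) * (κ * (x1 + x2)) by ring, hs2]; ring
    rw [e1]
    have e2 : κ * (2 * x1 + 2 * x2) ≤
        κ * (volume.real (X1 \ BH (A ∩ Q)) + volume.real (X2 \ BH (A ∩ Q)) +
          (volume.real (X3 \ BV (A ∩ Q)) + volume.real (X4 \ BV (A ∩ Q))) + 200 / 3 * V) := by
      apply mul_le_mul_of_nonneg_left _ hκ0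
      linarith
    have e3 : κ * (200 / 3 * V) ≤ √2 * (200 * V) := by
      nlinarith
    calc κ * (2 * x1 + 2 * x2) ≤ _ := e2
      _ ≤ √2 * P + κ * (200 / 3 * V) := by linarith
      _ ≤ √2 * (P + 200 * V) := by linarith
  · refine le_of_mul_le_mul_left ?_ hs0
    have e1 : √2 * (2 * κ * x1) = κ * (2 * √2 * x1) := by ring
    rw [e1]
    have e2 : κ * (2 * √2 * x1) ≤
        κ * (volume.real (X1 \ BH (A ∩ Q)) + volume.real (X2 \ BH (A ∩ Q)) +
          (volume.real (X3 \ BV (A ∩ Q)) + volume.real (X3 \ BV (A ∩ Q))) + 200 / 3 * V) := by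
      apply mul_le_mul_of_nonneg_left _ hκ0
      linarith
    have e3 : κ * (200 / 3 * V) ≤ √2 * (200 * V) := by
      nlinarith
    calc κ * (2 * √2 * x1) ≤ _ := e2
      _ ≤ √2 * P + κ * (200 / 3 * V) := by linarith
      _ ≤ √2 * (P + 200 * V) := by linarith

end Pool.Agent.TH329.HU
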