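import Pool.Agent.TH703.HU.Stm

/-!
# Slices of planar sets and the two-line estimate
-/

set_option autoImplicit false

open MeasureTheory Set Metric Filter Topology
open scoped ENNReal Real

noncomputable section

namespace Pool.Agent.TH329.HU

/-- Horizontal slice. -/
def hs (B : Set ℂ) (b : ℝ) : Set ℝ := {t | (⟨t, b⟩ : ℂ) ∈ B}

/-- Vertical slice. -/
def vs (B : Set ℂ) (a : ℝ) : Set ℝ := {t | (⟨a, t⟩ : ℂ) ∈ B}

/-- The set in `ℝ × ℝ`. -/
def pr (B : Set ℂ) : Set (ℝ × ℝ) := Complex.measurableEquivRealProd.symm ⁻¹' B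

lemma meas_pr {B : Set ℂ} (hB : MeasurableSet B) : MeasurableSet (pr B) :=
  Complex.measurableEquivRealProd.symm.measurable hB

lemma vol_pr {B : Set ℂ} (hB : MeasurableSet B) : volume (pr B) = volume B :=
  (Complex.volume_preserving_equiv_real_prod.symm).measure_preimage hB.nullMeasurableSet

lemma hs_eq (B : Set ℂ) (b : ℝ) : hs B b = (fun x => (x, b)) ⁻¹' (pr B) := rfl

lemma vs_eq (B : Set ℂ) (a : ℝ) : vs B a = Prod.mk a ⁻¹' (pr B) := rfl

lemma meas_hs {B : Set ℂ} (hB : MeasurableSet B) (b : ℝ) : MeasurableSet (hs B b) := by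
  rw [hs_eq]; exact measurable_prodMk_right (meas_pr hB)

lemma meas_vs {B : Set ℂ} (hB : MeasurableSet B) (a : ℝ) : MeasurableSet (vs B a) := by
  rw [vs_eq]; exact measurable_prodMk_left (meas_pr hB)

lemma fun_hs {B : Set ℂ} (hB : MeasurableSet B) : Measurable fun b => volume (hs B b) := by
  simp_rw [hs_eq]; exact measurable_measure_prodMk_right (meas_pr hB)

lemma fun_vs {B : Set ℂ} (hB : MeasurableSet B) : Measurable fun a => volume (vs B a) := by
  simp_rw [vs_eq]; exact measurable_measure_prodMk_left (meas_pr hB)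

lemma int_hs {B : Set ℂ} (hB : MeasurableSet B) : ∫⁻ b, volume (hs B b) = volume B := by
  rw [← vol_pr hB, Measure.volume_eq_prod, Measure.prod_apply_symm (meas_pr hB)]
  rfl

lemma int_vs {B : Set ℂ} (hB : MeasurableSet B) : ∫⁻ a, volume (vs B a) = volume B := by
  rw [← vol_pr hB, Measure.volume_eq_prod, Measure.prod_apply (meas_pr hB)]
  rfl

/-- The heights of the horizontal lines meeting `B` in positive length. -/
def XH (B : Set ℂ) : Set ℝ := {b | 0 < volume (hs B b)}

/-- The abscissas of the vertical lines meeting `B` in positive length. -/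
def XV (B : Set ℂ) : Set ℝ := {a | 0 < volume (vs B a)}

lemma meas_XH {B : Set ℂ} (hB : MeasurableSet B) : MeasurableSet (XH B) :=
  measurableSet_lt measurable_const (fun_hs hB)

lemma meas_XV {B : Set ℂ} (hB : MeasurableSet B) : MeasurableSet (XV B) :=
  measurableSet_lt measurable_const (fun_vs hB)

lemma prod_le {B : Set ℂ} (hB : MeasurableSet B) :
    volume B ≤ volume (XV B) * volume (XH B) := by
  have hs1 : MeasurableSet (pr B) := meas_pr hB
  have h1 : volume (pr B ∩ {p | p.1 ∉ XV B}) = 0 := by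
    have hm : MeasurableSet (pr B ∩ {p : ℝ × ℝ | p.1 ∉ XV B}) :=
      hs1.inter (measurable_fst (meas_XV hB).compl)
    rw [Measure.volume_eq_prod, Measure.prod_apply hm]
    rw [lintegral_eq_zero_iff (measurable_measure_prodMk_left hm)]
    refine Eventually.of_forall fun a => ?_
    by_cases ha : a ∈ XV B
    · have : Prod.mk a ⁻¹' (pr B ∩ {p : ℝ × ℝ | p.1 ∉ XV B}) = ∅ := by
        ext t; simp [ha]
      simp only [this, measure_empty, Pi.zero_apply]
    · have h2 : volume (vs B a) = 0 := by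
        by_contra h; exact ha (pos_iff_ne_zero.2 h)
      simp only [Pi.zero_apply]
      refine measure_mono_null ?_ h2
      intro t ht
      exact ht.1
  have h2 : volume (pr B ∩ {p | p.2 ∉ XH B}) = 0 := by
    have hm : MeasurableSet (pr B ∩ {p : ℝ × ℝ | p.2 ∉ XH B}) :=
      hs1.inter (measurable_snd (meas_XH hB).compl)
    rw [Measure.volume_eq_prod, Measure.prod_apply_symm hm]
    rw [lintegral_eq_zero_iff (measurable_measure_prodMk_right hm)]
    refine Eventually.of_forall fun b => ?_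
    by_cases hb : b ∈ XH B
    · have : (fun x => (x, b)) ⁻¹' (pr B ∩ {p : ℝ × ℝ | p.2 ∉ XH B}) = ∅ := by
        ext t; simp [hb]
      simp only [this, measure_empty, Pi.zero_apply]
    · have h2 : volume (hs B b) = 0 := by
        by_contra h; exact hb (pos_iff_ne_zero.2 h)
      simp only [Pi.zero_apply]
      refine measure_mono_null ?_ h2
      intro t ht
      exact ht.1
  have h3 : pr B ⊆ (XV B ×ˢ XH B) ∪ ((pr B ∩ {p | p.1 ∉ XV B}) ∪ (pr B ∩ {p | p.2 ∉ XH B})) := by
    intro p hp
    by_cases h4 : p.1 ∈ XV B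
    · by_cases h5 : p.2 ∈ XH B
      · exact Or.inl ⟨h4, h5⟩
      · exact Or.inr (Or.inr ⟨hp, h5⟩)
    · exact Or.inr (Or.inl ⟨hp, h4⟩)
  rw [← vol_pr hB]
  calc volume (pr B) ≤ volume ((XV B ×ˢ XH B) ∪
        ((pr B ∩ {p | p.1 ∉ XV B}) ∪ (pr B ∩ {p | p.2 ∉ XH B}))) := measure_mono h3
    _ ≤ volume (XV B ×ˢ XH B) +
        volume ((pr B ∩ {p | p.1 ∉ XV B}) ∪ (pr B ∩ {p | p.2 ∉ XH B})) := measure_union_le _ _
    _ ≤ volume (XV B ×ˢ XH B) +
        (volume (pr B ∩ {p | p.1 ∉ XV B}) + volume (pr B ∩ {p | p.2 ∉ XH B})) := by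
          gcongr; exact measure_union_le _ _
    _ = volume (XV B) * volume (XH B) := by
          rw [h1, h2, add_zero, add_zero, Measure.volume_eq_prod, Measure.prod_prod]

/-- The lines meeting `B` in length at least `6/100`. -/
def BH (B : Set ℂ) : Set ℝ := {b | ENNReal.ofReal (6 / 100) ≤ volume (hs B b)}

/-- The lines meeting `B` in length at least `6/100`. -/
def BV (B : Set ℂ) : Set ℝ := {a | ENNReal.ofReal (6 / 100) ≤ volume (vs B a)}

lemma meas_BH {B : Set ℂ} (hB : MeasurableSet B) : MeasurableSet (BH B) :=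
  measurableSet_le measurable_const (fun_hs hB)

lemma meas_BV {B : Set ℂ} (hB : MeasurableSet B) : MeasurableSet (BV B) :=
  measurableSet_le measurable_const (fun_vs hB)

lemma BH_le {B : Set ℂ} (hB : MeasurableSet B) :
    ENNReal.ofReal (6 / 100) * volume (BH B) ≤ volume B := by
  rw [← int_hs hB]
  exact mul_meas_ge_le_lintegral (fun_hs hB) _

lemma BV_le {B : Set ℂ} (hB : MeasurableSet B) :
    ENNReal.ofReal (6 / 100) * volume (BV B) ≤ volume B := by
  rw [← int_vs hB]
  exact mul_meas_ge_le_lintegral (fun_vs hB) _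

/-- A segment of length at least `6/100` which carries little of `S` is not full. -/
lemma not_full {S : Set ℝ} {a b q : ℝ} (ha : -q ≤ a) (hb : b ≤ q)
    (hab : 6 / 100 ≤ b - a) (h : volume (S ∩ Ioo (-q) q) < ENNReal.ofReal (6 / 100)) :
    0 < volume (Ioo a b \ S) := by
  by_contra h0
  have h1 : volume (Ioo a b \ S) = 0 := by
    by_contra h2; exact h0 (pos_iff_ne_zero.2 h2)
  have h2 : volume (Ioo a b) ≤ volume (S ∩ Ioo (-q) q) + volume (Ioo a b \ S) := by
    refine le_trans (measure_mono ?_) (measure_union_le _ _)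
    intro t ht
    by_cases hS : t ∈ S
    · exact Or.inl ⟨hS, lt_of_le_of_lt ha ht.1, lt_of_lt_of_le ht.2 hb⟩
    · exact Or.inr ⟨ht, hS⟩
  rw [h1, add_zero, Real.volume_Ioo] at h2
  have h3 : ENNReal.ofReal (6 / 100) ≤ ENNReal.ofReal (b - a) := ENNReal.ofReal_le_ofReal hab
  exact absurd (lt_of_le_of_lt (h3.trans h2) h) (lt_irrefl _)

end Pool.Agent.TH329.HU
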